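import Pool.Agent.Q211.ZP.Mc
import Pool.Agent.Q211.ZP.Um

/-!
# Compact metrizable spaces in the permutation model of the Cantor cubes are separable

The ambient model is the universe `U Ac` of all sets with atoms in `Ac`, the set of the pairs
`(n, f)` with `f` in the Cantor cube, and the permutation model is `Pc = PM Ac Nc`, the class of
the hereditarily symmetric sets for the group `Gc` of all permutations of the atoms whose
restriction to each copy of the Cantor cube is an autohomeomorphism, and the filter `Nc` of the
pointwise stabilizers of the sets of atoms contained in finitely many copies.

Let `(X, d)` be a compact metric space in the model. It is totally bounded. There is a finite set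
`S` such that the group `K` of the permutations that fix the copies with index in `S` acts on `X`
by isometries (it fixes the real numbers of the model, since an Archimedean ordered field has no
automorphisms). We show that this action is trivial. For `g` in `K` write `|g| ≤ ε` if
`d (g x) x ≤ ε` for all `x`. This is invariant under conjugation, and, as `X` is totally bounded,
every sequence in `K` has two members with `|(s i)⁻¹ (s j)| ≤ ε`.

Suppose that `g` is the identity on a nonempty open set in each copy of the Cantor cube, say on the
range of a contraction `P` that adds a prefix. The blocks `P^j C` for `C` the complement of the
range of `P` are a partition of the cube without one point. For a set `D` of natural numbers let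
`g_D` be the homeomorphism that acts as `g` on the blocks with index in `D`, and trivially
otherwise. Applied to an increasing sequence of sets, the finiteness condition gives an infinite
set `D` with infinite complement and `|g_D| ≤ ε`. By conjugation with permutations of the blocks,
this holds for all such sets, so `|g| = |g_{0}| ≤ 2 ε`. Every element of `K` is a product of two
elements of this kind.

So the elements of `X` have a common support, and a countable dense subset is in the model.
-/

set_option autoImplicit false

namespace Pool.Agent.Results.MP_0aaa5a_lc.SeparableInCantorCubeModel

open Pool.Agent.Helper672.ZFA Pool.Agent.Q211.ZP

/-- The universe `U Ac` is a model of ZFA with the axiom of choice, the permutation model `Pc` is a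
model of ZFA with standard natural numbers, and in it every compact metrizable space is
separable. -/
theorem result : ZFA (U Ac) ∧ AC (U Ac) ∧ ZFA Pc ∧ StdOmega Pc ∧
    ∀ t x : Pc, IsMetrizable t x → IsCompact' t x → IsSeparable' t x :=
  ⟨inferInstance, u_AC, inferInstance, stdOmega, fun _ _ h h' => separable_pc h h'⟩

end Pool.Agent.Results.MP_0aaa5a_lc.SeparableInCantorCubeModel
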